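import Pool.Agent.helper62.QU.Spec

/-!
# Project qu: EIG (smoothing of eigensections)
-/

set_option autoImplicit false

open scoped MatrixGroups ContDiff Topology UpperHalfPlane
open UpperHalfPlane MeasureTheory Filter Set

namespace Pool.Agent.QU

theorem EIG_lim (G M v : ℝ) (hM : 0 ≤ M) (hv : 0 ≤ v)
    (h : ∀ ε : ℝ, 0 < ε → G ≤ (1 + ε) * M + (ε ^ 2 + ε) * v) : G ≤ M := by
  apply le_of_forall_pos_le_add
  intro δ hδ
  have h0 : 0 < M + 2 * v + 1 := by linarith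
  obtain ⟨ε, h1, h2, h3⟩ : ∃ ε : ℝ, 0 < ε ∧ ε ≤ 1 ∧ ε * (M + 2 * v + 1) ≤ δ := by
    refine ⟨min 1 (δ / (M + 2 * v + 1)), lt_min one_pos (div_pos hδ h0), min_le_left _ _, ?_⟩
    rw [← le_div_iff₀ h0]
    exact min_le_right _ _
  have h4 := h ε h1
  have h5 : 0 ≤ ε * (1 - ε) * v := mul_nonneg (mul_nonneg h1.le (sub_nonneg.2 h2)) hv
  nlinarith

theorem EIG_sq (a b ε : ℝ) (ha : 0 ≤ a) (hb : a ≤ b + ε) (hε : 0 < ε) :
    a ^ 2 ≤ (1 + ε) * b ^ 2 + (ε ^ 2 + ε) := by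
  have h1 : a ^ 2 ≤ (b + ε) ^ 2 := pow_le_pow_left₀ ha hb 2
  have h2 : 0 ≤ ε * (b - 1) ^ 2 := mul_nonneg hε.le (sq_nonneg _)
  nlinarith

/-- continuous functions are integrable on `F` -/
theorem EIG_int {F K : Set ℍ} (hK : IsCompact K) (hFK : F ⊆ K) (hF : MeasurableSet F)
    (hfin : volume F < ⊤) (f : ℍ → ℝ) (hf : Continuous f) : IntegrableOn f F volume := by
  obtain ⟨C, hC⟩ := hK.exists_bound_of_continuousOn hf.continuousOn
  apply Measure.integrableOn_of_bounded hfin.ne hf.aestronglyMeasurable (M := C)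
  exact (ae_restrict_iff' hF).2 (Eventually.of_forall fun z hz => hC z (hFK hz))

theorem EIG (_h1 : TTT_stmt) (h2 : CA1_stmt) (_h3 : LAK_stmt) (_h4 : CVS_stmt) (h5 : CVB_stmt)
    (h6 : COM_stmt) (h7 : APX_stmt) (h8 : DOB_stmt) (h9 : YNG_stmt) : EIG_stmt := by
  intro Γ F fam V _ _ _ ρ φ μ η hΓ hF hfam hη hφ heq hlap
  have hφc : Continuous φ := ((h2 V).1 φ).1 ((h2 V).2.1 φ 0 2 zero_le hφ)
  obtain ⟨K, hK, hFK⟩ := hF.rel
  obtain ⟨-, -, -, hfin, -, -⟩ := h8 Γ F hΓ hF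
  obtain ⟨-, -, c3, c4, -, c6, -, -⟩ := h5 V
  have hcc : ∀ κ : ℝ → ℝ, RK κ → Continuous (conv κ φ) := fun κ hκ => c6 κ φ hκ hφc
  have hkη : RK (fam η) := hfam.rk η hη
  have hM : 0 ≤ (μ * η / 2) ^ 2 * ∫ z in F, ‖φ z‖ ^ 2 :=
    mul_nonneg (sq_nonneg _) (integral_nonneg fun z => sq_nonneg _)
  apply EIG_lim _ _ (volume F).toReal hM ENNReal.toReal_nonneg
  intro ε hε
  obtain ⟨η₀, hη₀, hap⟩ := (h7 fam hfam).1 V φ hφc K hK ε hε
  obtain ⟨η', hη', hle, hle'⟩ : ∃ η' : ℝ, 0 < η' ∧ η' ≤ η ∧ η' ≤ η₀ :=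
    ⟨min η η₀, lt_min hη hη₀, min_le_left _ _, min_le_right _ _⟩
  obtain ⟨ψ, hψ, hψ0, hψL, hψm⟩ := hfam.psi η η' hη' hle
  have hkη' : RK (fam η') := hfam.rk η' hη'
  have e1 : ∀ z, conv (fam η') φ z - conv (fam η) φ z = μ • conv ψ φ z := by
    intro z
    have a1 := c3 (fam η') (fam η) φ 1 (-1) z hkη' hkη hφc
    have a2 := c4 (LL ψ) (fun t => 1 * fam η' t + (-1) * fam η t) φ z
      (fun t ht => by rw [hψL t ht]; ring)
    have a3 := h6 V ψ φ hψ hφ z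
    have a4 : conv ψ (lap φ) z = μ • conv ψ φ z := by
      unfold conv
      rw [← integral_smul]
      congr 1
      funext w
      rw [hlap w, smul_comm]
    rw [← a4, a3, a2, a1, one_smul, neg_one_smul, sub_eq_add_neg]
  have e2 : ∀ z ∈ F, ‖conv (fam η) φ z - φ z‖ ^ 2 ≤
      (1 + ε) * (μ ^ 2 * ‖conv ψ φ z‖ ^ 2) + (ε ^ 2 + ε) := by
    intro z hz
    have b1 := hap η' hη' hle' z (hFK hz)
    have b2 : conv (fam η) φ z - φ z = (conv (fam η') φ z - φ z) - μ • conv ψ φ z := by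
      rw [← e1]
      abel
    have b3 : ‖conv (fam η) φ z - φ z‖ ≤ ‖μ • conv ψ φ z‖ + ε := by
      rw [b2]
      calc ‖(conv (fam η') φ z - φ z) - μ • conv ψ φ z‖
          ≤ ‖conv (fam η') φ z - φ z‖ + ‖μ • conv ψ φ z‖ := norm_sub_le _ _
        _ ≤ ‖μ • conv ψ φ z‖ + ε := by linarith
    have b4 := EIG_sq _ _ ε (norm_nonneg _) b3 hε
    rw [norm_smul, mul_pow, Real.norm_eq_abs, sq_abs] at b4
    exact b4
  have i1 : IntegrableOn (fun z => ‖conv (fam η) φ z - φ z‖ ^ 2) F volume :=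
    EIG_int hK hFK hF.meas hfin _ (((hcc _ hkη).sub hφc).norm.pow 2)
  have i2 : IntegrableOn (fun z => (1 + ε) * (μ ^ 2 * ‖conv ψ φ z‖ ^ 2)) F volume :=
    EIG_int hK hFK hF.meas hfin _ (continuous_const.mul (continuous_const.mul ((hcc _ hψ).norm.pow 2)))
  have i3 : IntegrableOn (fun _ : ℍ => ε ^ 2 + ε) F volume :=
    EIG_int hK hFK hF.meas hfin _ continuous_const
  have e3 := h9 Γ F V ψ φ (η / 2) hΓ hF hψ hψ0 hψm hφc
    (fun γ z => by rw [heq, LinearIsometryEquiv.norm_map])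
  calc ∫ z in F, ‖conv (fam η) φ z - φ z‖ ^ 2
      ≤ ∫ z in F, ((1 + ε) * (μ ^ 2 * ‖conv ψ φ z‖ ^ 2) + (ε ^ 2 + ε)) :=
        setIntegral_mono_on i1 (i2.add i3) hF.meas e2
    _ = (1 + ε) * (μ ^ 2 * ∫ z in F, ‖conv ψ φ z‖ ^ 2) + (ε ^ 2 + ε) * (volume F).toReal := by
        rw [integral_add i2 i3, integral_const_mul, integral_const_mul, setIntegral_const,
          smul_eq_mul, mul_comm (ε ^ 2 + ε)]
        rfl
    _ ≤ (1 + ε) * ((μ * η / 2) ^ 2 * ∫ z in F, ‖φ z‖ ^ 2) + (ε ^ 2 + ε) * (volume F).toReal := by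
        have d1 : μ ^ 2 * ∫ z in F, ‖conv ψ φ z‖ ^ 2 ≤
            (μ * η / 2) ^ 2 * ∫ z in F, ‖φ z‖ ^ 2 := by
          calc μ ^ 2 * ∫ z in F, ‖conv ψ φ z‖ ^ 2
              ≤ μ ^ 2 * ((η / 2) ^ 2 * ∫ z in F, ‖φ z‖ ^ 2) :=
                mul_le_mul_of_nonneg_left e3 (sq_nonneg _)
            _ = (μ * η / 2) ^ 2 * ∫ z in F, ‖φ z‖ ^ 2 := by ring
        have d2 := mul_le_mul_of_nonneg_left d1 (by linarith : (0 : ℝ) ≤ 1 + ε)
        linarith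

end Pool.Agent.QU
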